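import Mathlib
import Pool.Agent.Helper75.KS.GoalsB

/-!
# KS-EHB: the number of linear extensions of the induced order
-/

set_option autoImplicit false

namespace Pool.Agent.Helper32.KS

open Pool.Agent.Helper75.KS
open Pool.Agent.Helper89.GP (LX po mem_LX)

noncomputable section

section ehb

variable {n : ℕ} (R : Fin n → Fin n → Prop)

/-- the linear extensions of the order on `X`, as lists -/
def Ls (X : Finset (Fin n)) : Set (List (Fin n)) :=
  {l | l.Nodup ∧ (∀ a, a ∈ l ↔ a ∈ X) ∧ l.Pairwise fun a b => ¬ R b a}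

theorem Ls_finite (X : Finset (Fin n)) : (Ls R X).Finite := by
  refine (List.finite_length_le (Fin n) n).subset fun l hl => ?_
  have := hl.1.length_le_card
  rwa [Fintype.card_fin] at this

/-- the same as a finite set -/
def LF (X : Finset (Fin n)) : Finset (List (Fin n)) := (Ls_finite R X).toFinset

theorem mem_LF {X : Finset (Fin n)} {l : List (Fin n)} : l ∈ LF R X ↔
    l.Nodup ∧ (∀ a, a ∈ l ↔ a ∈ X) ∧ l.Pairwise fun a b => ¬ R b a := by
  unfold LF
  rw [Set.Finite.mem_toFinset]
  rfl

theorem mem_mn {X : Finset (Fin n)} {z : Fin n} : z ∈ mn R X ↔ z ∈ X ∧ ∀ y ∈ X, ¬ R y z := by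
  classical
  unfold mn
  rw [Finset.mem_filter]

theorem cons_mem {X : Finset (Fin n)} (hR : Spo R) {z : Fin n} {l : List (Fin n)} :
    z :: l ∈ LF R X ↔ z ∈ mn R X ∧ l ∈ LF R (X.erase z) := by
  rw [mem_LF, mem_LF, mem_mn, List.nodup_cons, List.pairwise_cons]
  constructor
  · rintro ⟨⟨h1, h2⟩, h3, h4, h5⟩
    refine ⟨⟨(h3 z).1 List.mem_cons_self, fun y hy => ?_⟩, h2, fun a => ?_, h5⟩
    · rcases List.mem_cons.1 ((h3 y).2 hy) with h | h
      · rw [h]; exact hR.ir z
      · exact h4 y h
    · rw [Finset.mem_erase, ← h3 a, List.mem_cons]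
      constructor
      · intro h
        exact ⟨fun he => h1 (he ▸ h), Or.inr h⟩
      · rintro ⟨h6, h7⟩
        exact h7.resolve_left h6
  · rintro ⟨⟨h1, h2⟩, h3, h4, h5⟩
    refine ⟨⟨fun h => ?_, h3⟩, fun a => ?_, fun a ha => ?_, h5⟩
    · exact (Finset.mem_erase.1 ((h4 z).1 h)).1 rfl
    · rw [List.mem_cons, h4 a, Finset.mem_erase]
      constructor
      · rintro (h | h)
        · rw [h]; exact h1
        · exact h.2
      · intro h
        by_cases he : a = z
        · exact Or.inl he
        · exact Or.inr ⟨he, h⟩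
    · exact h2 a (Finset.mem_erase.1 ((h4 a).1 ha)).2

theorem LF_rec (hR : Spo R) (X : Finset (Fin n)) (hX : X.Nonempty) :
    (LF R X).card = ∑ z ∈ mn R X, (LF R (X.erase z)).card := by
  classical
  have h1 : LF R X = (mn R X).biUnion fun z => (LF R (X.erase z)).image (z :: ·) := by
    ext l
    rw [Finset.mem_biUnion]
    constructor
    · intro hl
      rcases l with _ | ⟨z, l⟩
      · exfalso
        obtain ⟨a, ha⟩ := hX
        have := ((mem_LF R).1 hl).2.1 a
        exact absurd (this.2 ha) List.not_mem_nil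
      · obtain ⟨h2, h3⟩ := (cons_mem R hR).1 hl
        exact ⟨z, h2, Finset.mem_image_of_mem _ h3⟩
    · rintro ⟨z, hz, hl⟩
      obtain ⟨l', hl', rfl⟩ := Finset.mem_image.1 hl
      exact (cons_mem R hR).2 ⟨hz, hl'⟩
  rw [h1, Finset.card_biUnion]
  · refine Finset.sum_congr rfl fun z _ => ?_
    exact Finset.card_image_of_injective _ List.cons_injective
  · intro z _ z' _ hne
    rw [Function.onFun, Finset.disjoint_left]
    intro l hl hl'
    obtain ⟨a, _, rfl⟩ := Finset.mem_image.1 hl
    obtain ⟨b, _, hb⟩ := Finset.mem_image.1 hl'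
    exact hne (List.cons.inj hb).1.symm

theorem ofFn_mem {σ : Equiv.Perm (Fin n)} (h : σ ∈ LX R) :
    List.ofFn (fun i => σ.symm i) ∈ LF R Finset.univ := by
  rw [mem_LF]
  refine ⟨List.nodup_ofFn.2 σ.symm.injective, fun a => ?_, ?_⟩
  · rw [List.mem_ofFn]
    exact ⟨fun _ => Finset.mem_univ _, fun _ => ⟨σ a, σ.symm_apply_apply a⟩⟩
  · rw [List.pairwise_ofFn]
    intro i j hij hR
    have := mem_LX.1 h _ _ hR
    rw [σ.apply_symm_apply, σ.apply_symm_apply] at this
    exact absurd hij (not_lt.2 this.le)

theorem LF_univ (hR : Spo R) : (LF R Finset.univ).card = (LX R).card := by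
  classical
  have h1 : LF R Finset.univ = (LX R).image fun σ => List.ofFn fun i => σ.symm i := by
    ext l
    constructor
    · intro hl
      obtain ⟨h2, h3, h4⟩ := (mem_LF R).1 hl
      have h3' : ∀ a, a ∈ l := fun a => (h3 a).2 (Finset.mem_univ _)
      have hlen : l.length = n := by
        have := Fintype.card_congr (List.Nodup.getEquivOfForallMemList l h2 h3')
        rwa [Fintype.card_fin, Fintype.card_fin] at this
      let e : Fin n ≃ Fin n :=
        (finCongr hlen.symm).trans (List.Nodup.getEquivOfForallMemList l h2 h3')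
      have he : ∀ i : Fin n, e i = l.get (Fin.cast hlen.symm i) := fun i => rfl
      refine Finset.mem_image.2 ⟨e.symm, mem_LX.2 fun a b hab => ?_, ?_⟩
      · by_contra hcon
        have h5 : a = l.get (Fin.cast hlen.symm (e.symm a)) := by
          rw [← he, e.apply_symm_apply]
        have h6 : b = l.get (Fin.cast hlen.symm (e.symm b)) := by
          rw [← he, e.apply_symm_apply]
        rcases lt_or_eq_of_le (not_lt.1 hcon) with h7 | h7
        · have h8 := List.pairwise_iff_get.1 h4 (Fin.cast hlen.symm (e.symm b))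
            (Fin.cast hlen.symm (e.symm a)) h7
          rw [← h5, ← h6] at h8
          exact h8 hab
        · have h8 : b = a := e.symm.injective h7
          rw [h8] at hab
          exact hR.ir a hab
      · refine List.ext_get (by rw [List.length_ofFn, hlen]) fun i h8 h9 => ?_
        simp only [List.get_eq_getElem, List.getElem_ofFn]
        exact he _
    · intro hl
      obtain ⟨σ, hσ, rfl⟩ := Finset.mem_image.1 hl
      exact ofFn_mem R hσ
  rw [h1, Finset.card_image_of_injective]
  intro σ τ h
  have h2 : (fun i => σ.symm i) = fun i => τ.symm i := List.ofFn_injective h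
  have h3 : σ.symm = τ.symm := Equiv.ext fun i => congrFun h2 i
  exact Equiv.symm_bijective.injective h3

theorem erase_split {l : List (Fin n)} (hl : l.Nodup) {k : ℕ} (hk : k < l.length) {x : Fin n}
    (hx : l[k] = x) : l.erase x = l.take k ++ l.drop (k + 1) := by
  rw [← hx, hl.erase_getElem, List.eraseIdx_eq_take_drop_succ]

theorem third (hR : Spo R) (x : Fin n) (k : ℕ) [DecidablePred fun σ : Equiv.Perm (Fin n) => po σ x = k] :
    ((LX R).filter fun σ => po σ x = k).card ≤ (LF R (Finset.univ.erase x)).card := by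
  classical
  refine Finset.card_le_card_of_injOn (fun σ => (List.ofFn fun i => σ.symm i).erase x) ?_ ?_
  · intro σ hσ
    obtain ⟨h1, _⟩ := Finset.mem_filter.1 (Finset.mem_coe.1 hσ)
    obtain ⟨h2, h3, h4⟩ := (mem_LF R).1 (ofFn_mem R h1)
    refine Finset.mem_coe.2 ((mem_LF R).2 ⟨h2.erase x, fun a => ?_, h4.sublist List.erase_sublist⟩)
    rw [h2.mem_erase_iff, Finset.mem_erase, h3]
  · intro σ hσ τ hτ h
    obtain ⟨_, h1⟩ := Finset.mem_filter.1 (Finset.mem_coe.1 hσ)
    obtain ⟨_, h2⟩ := Finset.mem_filter.1 (Finset.mem_coe.1 hτ)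
    simp only at h
    have hkn : k < n := by
      rw [← h1]
      exact (σ x).isLt
    have hg : ∀ ρ : Equiv.Perm (Fin n), po ρ x = k → ∃ hk : k < (List.ofFn fun i => ρ.symm i).length,
        (List.ofFn fun i => ρ.symm i)[k] = x := by
      intro ρ hρ
      refine ⟨by rw [List.length_ofFn]; exact hkn, ?_⟩
      rw [List.getElem_ofFn, Equiv.symm_apply_eq]
      exact Fin.ext hρ.symm
    obtain ⟨hk1, hg1⟩ := hg σ h1
    obtain ⟨hk2, hg2⟩ := hg τ h2
    have hn1 : (List.ofFn fun i => σ.symm i).Nodup := List.nodup_ofFn.2 σ.symm.injective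
    have hn2 : (List.ofFn fun i => τ.symm i).Nodup := List.nodup_ofFn.2 τ.symm.injective
    rw [erase_split hn1 hk1 hg1, erase_split hn2 hk2 hg2] at h
    obtain ⟨h5, h6⟩ := List.append_inj h (by
      rw [List.length_take, List.length_take, List.length_ofFn, List.length_ofFn])
    have h7 : (List.ofFn fun i => σ.symm i) = List.ofFn fun i => τ.symm i := by
      rw [← List.take_append_drop k (List.ofFn fun i => σ.symm i),
        ← List.take_append_drop k (List.ofFn fun i => τ.symm i), h5,
        ← List.getElem_cons_drop hk1, ← List.getElem_cons_drop hk2, h6, hg1, hg2]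
    have h8 : (fun i => σ.symm i) = fun i => τ.symm i := List.ofFn_injective h7
    have h9 : σ.symm = τ.symm := Equiv.ext fun i => congrFun h8 i
    exact Equiv.symm_bijective.injective h9

end ehb

theorem ehb : EhbStmt := by
  intro n R hR
  exact ⟨fun X => (LF R X).card, fun X hX => LF_rec R hR X hX, LF_univ R hR,
    fun x k => third R hR x k⟩

end

end Pool.Agent.Helper32.KS
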