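import Pool.Agent.Helper42.KS.Goals

set_option autoImplicit false

namespace Pool.Agent.Helper42.KS.PkGM

open Finset

theorem ee_add (s t : ℝ) : ee (s + t) = ee s * ee t := by
  unfold ee
  rw [← Complex.exp_add]
  congr 1
  push_cast
  ring

theorem ee_int (n : ℤ) : ee (n : ℝ) = 1 := by
  unfold ee
  have : ((2 * Real.pi * (n : ℝ) : ℝ) : ℂ) * Complex.I = n * (2 * Real.pi * Complex.I) := by
    push_cast
    ring
  rw [this]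
  exact Complex.exp_int_mul_two_pi_mul_I n

theorem ee_add_int (s : ℝ) (n : ℤ) : ee (s + n) = ee s := by
  rw [ee_add, ee_int, mul_one]

theorem dvd_add_pow (x y : ℤ) (k : ℕ) (hk : 1 ≤ k) : x * y ∣ (x + y) ^ k - x ^ k - y ^ k := by
  induction k, hk using Nat.le_induction with
  | base => simp
  | succ k hk ih =>
    have h : (x + y) ^ (k + 1) - x ^ (k + 1) - y ^ (k + 1)
        = (x + y) * ((x + y) ^ k - x ^ k - y ^ k) + (x * y ^ k + y * x ^ k) := by ring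
    rw [h]
    obtain ⟨j, rfl⟩ : ∃ j, k = j + 1 := ⟨k - 1, by omega⟩
    refine dvd_add (Dvd.dvd.mul_left ih _) (dvd_add ?_ ?_)
    · exact ⟨y ^ j, by ring⟩
    · exact ⟨x ^ j, by ring⟩

theorem per (k : ℕ) (a b : ℤ) (Q m : ℕ) (hQ : 1 ≤ Q) :
    ee ((a * ((m % Q : ℕ) : ℝ) ^ k + b * ((m % Q : ℕ) : ℝ)) / Q)
      = ee ((a * (m : ℝ) ^ k + b * (m : ℝ)) / Q) := by
  have h1 : ((m % Q : ℕ) : ℤ) ≡ m [ZMOD Q] := by
    rw [Int.natCast_mod]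
    exact Int.mod_modEq _ _
  generalize m % Q = m' at h1 ⊢
  have hd : (Q : ℤ) ∣ (a * (m : ℤ) ^ k + b * m) - (a * (m' : ℤ) ^ k + b * (m' : ℤ)) :=
    ((h1.pow k).mul_left a |>.add (h1.mul_left b)).dvd
  obtain ⟨c, hc⟩ := hd
  have hc' : (a * (m : ℝ) ^ k + b * m) = (a * (m' : ℝ) ^ k + b * (m' : ℝ)) + Q * c := by
    have := congrArg (fun z : ℤ => (z : ℝ)) hc
    push_cast at this
    linarith
  have hQ' : (Q : ℝ) ≠ 0 := by positivity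
  rw [hc', add_div _ ((Q : ℝ) * c), mul_div_cancel_left₀ _ hQ', ee_add_int]

theorem split (k : ℕ) (a b : ℤ) (q₁ q₂ y₁ y₂ : ℕ) (hk : 1 ≤ k) (h1 : 1 ≤ q₁) (h2 : 1 ≤ q₂) :
    ee ((a * ((y₁ * q₂ + y₂ * q₁ : ℕ) : ℝ) ^ k + b * ((y₁ * q₂ + y₂ * q₁ : ℕ) : ℝ)) / ((q₁ * q₂ : ℕ) : ℝ))
      = ee ((((a * (q₂ : ℤ) ^ (k - 1) : ℤ) : ℝ) * (y₁ : ℝ) ^ k + b * (y₁ : ℝ)) / q₁)
        * ee ((((a * (q₁ : ℤ) ^ (k - 1) : ℤ) : ℝ) * (y₂ : ℝ) ^ k + b * (y₂ : ℝ)) / q₂) := by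
  obtain ⟨c, hc⟩ := dvd_add_pow ((y₁ : ℤ) * q₂) ((y₂ : ℤ) * q₁) k hk
  obtain ⟨j, rfl⟩ : ∃ j, k = j + 1 := ⟨k - 1, by omega⟩
  have hc' : (((y₁ : ℝ) * q₂ + (y₂ : ℝ) * q₁)) ^ (j + 1)
      = ((y₁ : ℝ) * q₂) ^ (j + 1) + ((y₂ : ℝ) * q₁) ^ (j + 1)
        + ((y₁ : ℝ) * q₂) * ((y₂ : ℝ) * q₁) * c := by
    have := congrArg (fun z : ℤ => (z : ℝ)) hc
    push_cast at this
    linarith
  have e1 : (q₁ : ℝ) ≠ 0 := by positivity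
  have e2 : (q₂ : ℝ) ≠ 0 := by positivity
  have : ((a * ((y₁ * q₂ + y₂ * q₁ : ℕ) : ℝ) ^ (j + 1) + b * ((y₁ * q₂ + y₂ * q₁ : ℕ) : ℝ))
      / ((q₁ * q₂ : ℕ) : ℝ))
      = (((((a * (q₂ : ℤ) ^ (j + 1 - 1) : ℤ) : ℝ) * (y₁ : ℝ) ^ (j + 1) + b * (y₁ : ℝ)) / q₁)
        + ((((a * (q₁ : ℤ) ^ (j + 1 - 1) : ℤ) : ℝ) * (y₂ : ℝ) ^ (j + 1) + b * (y₂ : ℝ)) / q₂))
        + ((a * y₁ * y₂ * c : ℤ) : ℝ) := by
    push_cast
    rw [hc']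
    field_simp
    ring
  rw [this, ee_add_int, ee_add]

theorem thm : G_GM := by
  intro k q₁ q₂ a b hk h1 h2 hco
  have hQ : 1 ≤ q₁ * q₂ := Nat.mul_pos h1 h2
  have hinj : Set.InjOn (fun p : ℕ × ℕ => (p.1 * q₂ + p.2 * q₁) % (q₁ * q₂))
      (((range q₁) ×ˢ (range q₂) : Finset (ℕ × ℕ)) : Set (ℕ × ℕ)) := by
    rintro ⟨u, v⟩ hu ⟨u', v'⟩ hu' h
    simp only [coe_product, coe_range, Set.mem_prod, Set.mem_Iio] at hu hu'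
    have h' : u * q₂ + v * q₁ ≡ u' * q₂ + v' * q₁ [MOD q₁ * q₂] := h
    have ha : u * q₂ + v * q₁ ≡ u' * q₂ + v' * q₁ [MOD q₁] := h'.of_mul_right q₂
    have hb : u * q₂ + v * q₁ ≡ u' * q₂ + v' * q₁ [MOD q₂] := h'.of_mul_left q₁
    have ha' : u * q₂ ≡ u' * q₂ [MOD q₁] := by
      have e1 : u * q₂ + v * q₁ ≡ u * q₂ [MOD q₁] := by
        simp [Nat.ModEq]
      have e2 : u' * q₂ + v' * q₁ ≡ u' * q₂ [MOD q₁] := by
        simp [Nat.ModEq]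
      exact e1.symm.trans (ha.trans e2)
    have hb' : v * q₁ ≡ v' * q₁ [MOD q₂] := by
      have e1 : u * q₂ + v * q₁ ≡ v * q₁ [MOD q₂] := by
        simp [Nat.ModEq]
      have e2 : u' * q₂ + v' * q₁ ≡ v' * q₁ [MOD q₂] := by
        simp [Nat.ModEq]
      exact e1.symm.trans (hb.trans e2)
    have hu1 : u ≡ u' [MOD q₁] := Nat.ModEq.cancel_right_of_coprime (by simpa using hco) ha'
    have hv1 : v ≡ v' [MOD q₂] :=
      Nat.ModEq.cancel_right_of_coprime (by simpa using hco.symm) hb'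
    have eu : u = u' := by
      have := hu1
      rw [Nat.ModEq, Nat.mod_eq_of_lt hu.1, Nat.mod_eq_of_lt hu'.1] at this
      exact this
    have ev : v = v' := by
      have := hv1
      rw [Nat.ModEq, Nat.mod_eq_of_lt hu.2, Nat.mod_eq_of_lt hu'.2] at this
      exact this
    rw [eu, ev]
  have hmaps : Set.MapsTo (fun p : ℕ × ℕ => (p.1 * q₂ + p.2 * q₁) % (q₁ * q₂))
      (((range q₁) ×ˢ (range q₂) : Finset (ℕ × ℕ)) : Set (ℕ × ℕ)) ((range (q₁ * q₂) : Finset ℕ) : Set ℕ) := by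
    intro p _
    simp only [coe_range, Set.mem_Iio]
    exact Nat.mod_lt _ hQ
  have hsurj : Set.SurjOn (fun p : ℕ × ℕ => (p.1 * q₂ + p.2 * q₁) % (q₁ * q₂))
      (((range q₁) ×ˢ (range q₂) : Finset (ℕ × ℕ)) : Set (ℕ × ℕ)) ((range (q₁ * q₂) : Finset ℕ) : Set ℕ) :=
    Finset.surjOn_of_injOn_of_card_le _ hmaps hinj (by simp)
  have hsum : ∑ y ∈ range (q₁ * q₂), ee ((a * (y : ℝ) ^ k + b * y) / ((q₁ * q₂ : ℕ) : ℝ))
      = ∑ p ∈ (range q₁) ×ˢ (range q₂),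
          (ee ((((a * (q₂ : ℤ) ^ (k - 1) : ℤ) : ℝ) * (p.1 : ℝ) ^ k + b * (p.1 : ℝ)) / q₁)
          * ee ((((a * (q₁ : ℤ) ^ (k - 1) : ℤ) : ℝ) * (p.2 : ℝ) ^ k + b * (p.2 : ℝ)) / q₂)) := by
    symm
    refine Finset.sum_nbij (fun p : ℕ × ℕ => (p.1 * q₂ + p.2 * q₁) % (q₁ * q₂)) ?_ hinj hsurj ?_
    · intro p hp
      exact hmaps hp
    · intro p _
      rw [per k a b (q₁ * q₂) _ hQ, ← split k a b q₁ q₂ p.1 p.2 hk h1 h2]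
  unfold GG
  rw [hsum, Finset.sum_product]
  simp only []
  rw [← Finset.sum_mul_sum]
  push_cast
  rw [mul_inv]
  ring

end Pool.Agent.Helper42.KS.PkGM
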