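import Pool.Agent.Helper75.KS.GoalsX
import Pool.Agent.Helper33.GP.SMO

/-!
# KS-LCV: log-concavity of the exponential model
-/

set_option autoImplicit false

namespace Pool.Agent.Helper32.KS

open MeasureTheory Filter Topology
open Pool.Agent.Helper75.KS
open Pool.Agent.Helper89.GP (LX card_pos_real)
open Pool.Agent.Helper33.GP (bx bx_meas wt_meas wt_nonneg wt_combo wt_le_one)

noncomputable section

variable {n : ℕ}

/-- the real weight -/
abbrev wr (x : Fin n → ℝ) : ℝ := Pool.Agent.Helper33.GP.wt x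

theorem wr_combo (x y : Fin n → ℝ) {l : ℝ} (h0 : 0 < l) (h1 : l < 1) :
    wr x ^ (1 - l) * wr y ^ l ≤ wr (fun i => (1 - l) * x i + l * y i) := by
  rcases Nat.eq_zero_or_pos n with h | h
  · subst h
    have h2 : ∀ x : Fin 0 → ℝ, wr x = 1 := by
      intro x
      show Real.exp (-⨆ a, x a) = 1
      rw [Real.iSup_of_isEmpty, neg_zero, Real.exp_zero]
    rw [h2, h2, h2, Real.one_rpow, Real.one_rpow, mul_one]
  · exact wt_combo ⟨0, h⟩ x y h0 h1

theorem wr_le_one {x : Fin n → ℝ} (h : ∀ a, 0 < x a) : wr x ≤ 1 := by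
  rcases Nat.eq_zero_or_pos n with h0 | h0
  · subst h0
    show Real.exp (-⨆ a, x a) ≤ 1
    rw [Real.iSup_of_isEmpty, neg_zero, Real.exp_zero]
  · exact wt_le_one ⟨0, h0⟩ h

theorem cn_meas (R : Fin n → Fin n → Prop) : MeasurableSet (Cn R) := by
  have h1 : MeasurableSet {x : Fin n → ℝ | ∀ a, 0 < x a} := by
    rw [Set.ofPred_forall]
    exact MeasurableSet.iInter fun a => measurableSet_lt measurable_const (measurable_pi_apply a)
  have h2 : MeasurableSet {x : Fin n → ℝ | ∀ a b, R a b → x a < x b} := by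
    rw [Set.ofPred_forall]
    refine MeasurableSet.iInter fun a => ?_
    rw [Set.ofPred_forall]
    refine MeasurableSet.iInter fun b => ?_
    by_cases hR : R a b
    · have h3 : {x : Fin n → ℝ | R a b → x a < x b} = {x | x a < x b} := by
        ext x; simp [hR]
      rw [h3]
      exact measurableSet_lt (measurable_pi_apply a) (measurable_pi_apply b)
    · have h3 : {x : Fin n → ℝ | R a b → x a < x b} = Set.univ := by
        ext x; simp [hR]
      rw [h3]
      exact MeasurableSet.univ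
  exact h1.inter h2

/-- The truncated weight. -/
def ft (R : Fin n → Fin n → Prop) (A : Set (Fin n → ℝ)) (T : ℝ) : (Fin n → ℝ) → ℝ :=
  (A ∩ Cn R ∩ bx n T).indicator wr

theorem ft_meas (R : Fin n → Fin n → Prop) {A : Set (Fin n → ℝ)} (hA : MeasurableSet A) (T : ℝ) :
    Measurable (ft R A T) :=
  wt_meas.indicator ((hA.inter (cn_meas R)).inter (bx_meas T))

theorem ft_bd (R : Fin n → Fin n → Prop) (A : Set (Fin n → ℝ)) (T : ℝ) (x : Fin n → ℝ) :
    0 ≤ ft R A T x ∧ ft R A T x ≤ 1 := by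
  unfold ft
  by_cases h : x ∈ A ∩ Cn R ∩ bx n T
  · rw [Set.indicator_of_mem h]
    exact ⟨wt_nonneg x, wr_le_one h.1.2.1⟩
  · rw [Set.indicator_of_notMem h]
    exact ⟨le_refl 0, zero_le_one⟩

theorem ft_supp (R : Fin n → Fin n → Prop) (A : Set (Fin n → ℝ)) (T : ℝ) (x : Fin n → ℝ)
    (h : ∃ i, T < |x i|) : ft R A T x = 0 := by
  unfold ft
  apply Set.indicator_of_notMem
  rintro ⟨h1, h2⟩
  obtain ⟨i, hi⟩ := h
  have h3 : 0 < x i := h1.2.1 i
  have h4 : x i < T := h2 i
  rw [abs_of_pos h3] at hi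
  linarith

theorem ft_combo (R : Fin n → Fin n → Prop) (A B C : Set (Fin n → ℝ)) (T : ℝ) {l : ℝ}
    (h0 : 0 < l) (h1 : l < 1) (hABC : ∀ u ∈ A, ∀ v ∈ B, (1 - l) • u + l • v ∈ C)
    (x y : Fin n → ℝ) :
    ft R A T x ^ (1 - l) * ft R B T y ^ l ≤ ft R C T (fun i => (1 - l) * x i + l * y i) := by
  have hl : 0 < 1 - l := sub_pos.2 h1
  by_cases hx : x ∈ A ∩ Cn R ∩ bx n T
  · by_cases hy : y ∈ B ∩ Cn R ∩ bx n T
    · have hz : (fun i => (1 - l) * x i + l * y i) ∈ C ∩ Cn R ∩ bx n T := by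
        obtain ⟨⟨xA, x1, x2⟩, x5⟩ := hx
        obtain ⟨⟨yB, y1, y2⟩, y5⟩ := hy
        refine ⟨⟨hABC x xA y yB, ?_, ?_⟩, ?_⟩
        · intro a
          have := mul_pos hl (x1 a)
          have := mul_pos h0 (y1 a)
          show 0 < (1 - l) * x a + l * y a
          linarith
        · intro a b hab
          have := mul_lt_mul_of_pos_left (x2 a b hab) hl
          have := mul_lt_mul_of_pos_left (y2 a b hab) h0
          show (1 - l) * x a + l * y a < (1 - l) * x b + l * y b
          linarith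
        · intro a
          have h3 := mul_lt_mul_of_pos_left (x5 a) hl
          have h4 := mul_lt_mul_of_pos_left (y5 a) h0
          show (1 - l) * x a + l * y a < T
          nlinarith
      unfold ft
      rw [Set.indicator_of_mem hx, Set.indicator_of_mem hy, Set.indicator_of_mem hz]
      exact wr_combo x y h0 h1
    · have h2 : ft R B T y = 0 := Set.indicator_of_notMem hy _
      rw [h2, Real.zero_rpow h0.ne', mul_zero]
      exact (ft_bd _ _ _ _).1
  · have h2 : ft R A T x = 0 := Set.indicator_of_notMem hx _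
    rw [h2, Real.zero_rpow hl.ne', zero_mul]
    exact (ft_bd _ _ _ _).1

theorem ft_pl (R : Fin n → Fin n → Prop) {A B C : Set (Fin n → ℝ)} (hA : MeasurableSet A)
    (hB : MeasurableSet B) (hC : MeasurableSet C) (T : ℝ) {l : ℝ} (h0 : 0 < l)
    (h1 : l < 1) (hABC : ∀ u ∈ A, ∀ v ∈ B, (1 - l) • u + l • v ∈ C) :
    (∫ x, ft R A T x) ^ (1 - l) * (∫ x, ft R B T x) ^ l ≤ ∫ x, ft R C T x :=
  Pool.Agent.Helper9.FR.pl_all n _ _ _ l T 1 h0 h1 (ft_meas R hA _) (ft_meas R hB _)
    (ft_meas R hC _) (ft_bd _ _ _) (ft_bd _ _ _) (ft_bd _ _ _)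
    (fun x hx => ⟨ft_supp _ _ _ x hx, ft_supp _ _ _ x hx, ft_supp _ _ _ x hx⟩)
    (ft_combo R A B C T h0 h1 hABC)

theorem mass (h1 : PrbStmt) (R : Fin n → Fin n → Prop) (hne : (LX R).Nonempty)
    {A : Set (Fin n → ℝ)} (hA : MeasurableSet A) :
    ∫⁻ x in A ∩ Cn R, ENNReal.ofReal (wr x) = (LX R).card * mu R A := by
  have h2 : mu R A = ((LX R).card : ENNReal)⁻¹ * ∫⁻ x in A ∩ Cn R, ENNReal.ofReal (wr x) := by
    unfold mu
    rw [Measure.smul_apply, withDensity_apply _ hA, Measure.restrict_restrict hA]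
    rfl
  have h3 : ((LX R).card : ENNReal) ≠ 0 := by
    have := Finset.card_pos.2 hne
    exact_mod_cast this.ne'
  rw [h2, ← mul_assoc, ENNReal.mul_inv_cancel h3 (ENNReal.natCast_ne_top _), one_mul]

theorem ft_tendsto (h1 : PrbStmt) (R : Fin n → Fin n → Prop) (hne : (LX R).Nonempty)
    {A : Set (Fin n → ℝ)} (hA : MeasurableSet A) :
    Tendsto (fun T : ℕ => ∫ x, ft R A T x) atTop (nhds ((LX R).card * (mu R).real A)) := by
  have hprob := h1.2.2 n R hne
  have hint : IntegrableOn (wr : (Fin n → ℝ) → ℝ) (A ∩ Cn R) := by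
    refine ⟨wt_meas.aestronglyMeasurable, ?_⟩
    rw [hasFiniteIntegral_iff_ofReal (Eventually.of_forall wt_nonneg), mass h1 R hne hA]
    exact ENNReal.mul_lt_top (ENNReal.natCast_lt_top _) (measure_lt_top _ _)
  have hval : ∫ x in A ∩ Cn R, wr x = (LX R).card * (mu R).real A := by
    rw [integral_eq_lintegral_of_nonneg_ae (Eventually.of_forall wt_nonneg)
      wt_meas.aestronglyMeasurable, mass h1 R hne hA, ENNReal.toReal_mul, ENNReal.toReal_natCast]
    rfl
  rw [← hval]
  have h2 : A ∩ Cn R = ⋃ T : ℕ, A ∩ Cn R ∩ bx n T := by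
    rw [← Set.inter_iUnion]
    have h2 : (⋃ T : ℕ, bx n (T : ℝ)) = Set.univ := by
      rw [Set.eq_univ_iff_forall]
      intro x
      obtain ⟨T, hT⟩ := exists_nat_gt (⨆ a, x a)
      rw [Set.mem_iUnion]
      refine ⟨T, fun a => ?_⟩
      exact lt_of_le_of_lt (le_ciSup (Set.finite_range x).bddAbove a) hT
    rw [h2, Set.inter_univ]
  have h3 : (fun T : ℕ => ∫ x, ft R A T x) =
      fun T : ℕ => ∫ x in A ∩ Cn R ∩ bx n T, wr x := by
    funext T
    unfold ft
    exact integral_indicator ((hA.inter (cn_meas R)).inter (bx_meas T))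
  rw [h3]
  have h4 := tendsto_setIntegral_of_monotone (μ := volume) (f := (wr : (Fin n → ℝ) → ℝ))
    (s := fun T : ℕ => A ∩ Cn R ∩ bx n T)
    (fun T => (hA.inter (cn_meas R)).inter (bx_meas _)) (by
      intro T T' hT x hx
      refine ⟨hx.1, fun a => lt_of_lt_of_le (hx.2 a) ?_⟩
      exact_mod_cast hT) (by
      rw [← h2]
      exact hint)
  rw [← h2] at h4
  exact h4

theorem lcv (h1 : PrbStmt) : LcvStmt := by
  intro n R A B C t hne hA hB hC ht0 ht1 hABC
  have hl : 0 < 1 - t := sub_pos.2 ht1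
  have t1 := ft_tendsto h1 R hne hA.measurableSet
  have t2 := ft_tendsto h1 R hne hB.measurableSet
  have t3 := ft_tendsto h1 R hne hC.measurableSet
  have t4 := (t1.rpow_const (p := 1 - t) (Or.inr hl.le)).mul (t2.rpow_const (p := t) (Or.inr ht0.le))
  have h2 := le_of_tendsto_of_tendsto' t4 t3 fun T =>
    ft_pl R hA.measurableSet hB.measurableSet hC.measurableSet T ht0 ht1 hABC
  have hN : (0 : ℝ) < (LX R).card := card_pos_real hne
  rw [Real.mul_rpow hN.le measureReal_nonneg, Real.mul_rpow hN.le measureReal_nonneg] at h2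
  have h3 : ((LX R).card : ℝ) ^ (1 - t) * ((LX R).card : ℝ) ^ t = (LX R).card := by
    rw [← Real.rpow_add hN, sub_add_cancel, Real.rpow_one]
  have h4 : ((LX R).card : ℝ) * (((mu R).real A) ^ (1 - t) * ((mu R).real B) ^ t) ≤
      (LX R).card * (mu R).real C := by
    calc ((LX R).card : ℝ) * (((mu R).real A) ^ (1 - t) * ((mu R).real B) ^ t) =
        (((LX R).card : ℝ) ^ (1 - t) * ((LX R).card : ℝ) ^ t) *
          (((mu R).real A) ^ (1 - t) * ((mu R).real B) ^ t) := by rw [h3]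
      _ = _ := by ring
      _ ≤ _ := h2
  exact le_of_mul_le_mul_left h4 hN

end

end Pool.Agent.Helper32.KS
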