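import Mathlib
import Pool.Agent.Helper44.KS.GoalsE

/-!
# KS-SHF: copies of a moving element at every place
-/

set_option autoImplicit false

namespace Pool.Agent.Helper32.KS

open MeasureTheory Filter Topology Set
open Pool.Agent.Helper44.KS

noncomputable section

/-- the mean of a bounded function times a displacement -/
theorem wbd {c : ℝ} (Z : KSys c) (g : (Fin Z.n → ℝ) → ℝ) (hg : ∀ d, |g d| ≤ 1)
    (p : Fin Z.n) (hp : |Z.a p| ≤ Z.S) : |∫ d, g d * Z.Y d p ∂Z.μ| ≤ 4 := by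
  have hY : Integrable (fun d : Fin Z.n → ℝ => |Z.Y d p|) Z.μ := by
    have : Integrable (fun d : Fin Z.n → ℝ => Z.Y d p) Z.μ := by
      unfold KSys.Y
      exact (Z.int p).sub (integrable_const _)
    exact this.abs
  calc |∫ d, g d * Z.Y d p ∂Z.μ| ≤ ∫ d, |g d * Z.Y d p| ∂Z.μ := abs_integral_le_integral_abs
    _ ≤ ∫ d, |Z.Y d p| ∂Z.μ := by
        refine integral_mono_of_nonneg (Eventually.of_forall fun d => abs_nonneg _) hY
          (Eventually.of_forall fun d => ?_)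
        simp only
        rw [abs_mul]
        have := hg d
        have h0 := abs_nonneg (Z.Y d p)
        nlinarith
    _ ≤ 4 := Z.m1 p hp

/-- boxes for one coordinate -/
theorem box1 {ε R w : ℝ} (hε : 0 < ε) (hw : |w| ≤ R) :
    ⌊w / ε⌋ ∈ Finset.Icc (-((⌈R / ε⌉₊ : ℤ) + 1)) ((⌈R / ε⌉₊ : ℤ) + 1) ∧
      |w - ε * ⌊w / ε⌋| ≤ ε := by
  have h1 : |w / ε| ≤ (⌈R / ε⌉₊ : ℝ) := by
    rw [abs_div, abs_of_pos hε]
    exact (div_le_div_of_nonneg_right hw hε.le).trans (Nat.le_ceil _)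
  have h2 := Int.floor_le (w / ε)
  have h3 := Int.lt_floor_add_one (w / ε)
  obtain ⟨h4, h5⟩ := abs_le.1 h1
  refine ⟨?_, ?_⟩
  · rw [Finset.mem_Icc]
    constructor
    · have : ((-((⌈R / ε⌉₊ : ℤ) + 1) : ℤ) : ℝ) ≤ ((⌊w / ε⌋ : ℤ) : ℝ) := by
        push_cast
        linarith
      exact_mod_cast this
    · have : ((⌊w / ε⌋ : ℤ) : ℝ) ≤ ((((⌈R / ε⌉₊ : ℤ) + 1) : ℤ) : ℝ) := by
        push_cast
        linarith
      exact_mod_cast this
  · have h6 : w = ε * (w / ε) := by field_simp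
    rw [abs_le]
    constructor
    · nlinarith
    · nlinarith

theorem shf (h1 : S_NRM) (h2 : S_CLO) (h3 : S_MKT) : S_SHF := by
  obtain ⟨C1, θ, hC1, hθ, hN⟩ := h1
  refine ⟨C1, θ, hC1, hθ, ?_⟩
  intro c L η hc hL hη F hF Z hS hfill
  classical
  obtain ⟨r, εw, hεw, hclo⟩ := h2 c (C1 + L + 1) η hc (by linarith) hη
  have hnrm := hN c hc Z hS hfill
  choose g hgm hgb hgc using fun N => hclo (Z N)
  obtain ⟨ε, hε, he1, he2, he3⟩ : ∃ ε : ℝ, 0 < ε ∧ ε ≤ 1 / 4 ∧ 3 * ε ≤ η ∧ (r + 3) * ε ≤ εw := by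
    refine ⟨min (1 / 4) (min (η / 3) (εw / (r + 3))), by positivity, min_le_left _ _, ?_, ?_⟩
    · have : min (1 / 4) (min (η / 3) (εw / (r + 3))) ≤ η / 3 :=
        (min_le_right _ _).trans (min_le_left _ _)
      linarith
    · have : min (1 / 4) (min (η / 3) (εw / (r + 3))) ≤ εw / (r + 3) :=
        (min_le_right _ _).trans (min_le_right _ _)
      have h0 : (0 : ℝ) < r + 3 := by positivity
      calc (r + 3) * min (1 / 4) (min (η / 3) (εw / (r + 3))) ≤ (r + 3) * (εw / (r + 3)) :=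
            mul_le_mul_of_nonneg_left this h0.le
        _ = εw := by field_simp
  let R : ℝ := C1 + 4
  let I : Finset ℤ := Finset.Icc (-((⌈R / ε⌉₊ : ℤ) + 1)) ((⌈R / ε⌉₊ : ℤ) + 1)
  let K : Finset (ℤ × (Fin r → ℤ)) := I ×ˢ Fintype.piFinset fun _ => I
  let w : ∀ N, Fin (Z N).n → Fin r → ℝ := fun N q i => ∫ d, g N i d * (Z N).Y d q ∂(Z N).μ
  let key : ∀ N, Fin (Z N).n → ℤ × (Fin r → ℤ) := fun N q =>
    (⌊(Z N).a q / ε⌋, fun i => ⌊w N q i / ε⌋)
  let T : ∀ N, Finset (Fin (Z N).n) := fun N =>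
    ((Z N).W C1).filter fun q => θ ≤ (Z N).dist q (Z N).x
  have hKne : K.Nonempty := by
    have hI : (0 : ℤ) ∈ I := by
      rw [Finset.mem_Icc]
      constructor <;> omega
    exact ⟨(0, fun _ => 0), Finset.mem_product.2 ⟨hI, Fintype.mem_piFinset.2 fun _ => hI⟩⟩
  have hKc : (0 : ℝ) < K.card := by exact_mod_cast Finset.card_pos.2 hKne
  let κ : ℝ := 1 / (4 * K.card)
  have hκ : 0 < κ := by positivity
  have hev : ∀ᶠ N in atTop, C1 ≤ (Z N).S ∧ (Z N).S / 4 ≤ (T N).card :=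
    (hS.eventually_ge_atTop C1).and hnrm
  have hev2 : ∀ᶠ N in atTop, ∃ k ∈ K, C1 ≤ (Z N).S ∧
      κ * (Z N).S ≤ ((T N).filter fun q => key N q = k).card := by
    filter_upwards [hev] with N hN
    obtain ⟨hN1, hN2⟩ := hN
    have hmaps : ∀ q ∈ T N, key N q ∈ K := by
      intro q hq
      have hq1 : |(Z N).a q| ≤ C1 := by
        have := (Finset.mem_filter.1 hq).1
        exact (Finset.mem_filter.1 this).2
      refine Finset.mem_product.2 ⟨?_, Fintype.mem_piFinset.2 fun i => ?_⟩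
      · exact (box1 hε (hq1.trans (by simp only [R]; linarith))).1
      · refine (box1 hε (?_ : |w N q i| ≤ R)).1
        have := wbd (Z N) (g N i) (hgb N i) q (hq1.trans hN1)
        simp only [R]
        exact this.trans (by linarith)
    obtain ⟨k, hk, hk2⟩ := Finset.exists_le_card_fiber_of_nsmul_le_card_of_maps_to hmaps hKne
      (b := κ * (Z N).S) (by
        rw [nsmul_eq_mul]
        refine le_trans (le_of_eq ?_) hN2
        simp only [κ]
        field_simp)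
    exact ⟨k, hk, hN1, hk2⟩
  obtain ⟨k, hkK, hk⟩ : ∃ k ∈ K, ∃ᶠ N in atTop, C1 ≤ (Z N).S ∧
      κ * (Z N).S ≤ ((T N).filter fun q => key N q = k).card := by
    by_contra hcon
    push Not at hcon
    have h4 : ∀ k ∈ K, ∀ᶠ N in atTop, ¬ (C1 ≤ (Z N).S ∧
        κ * (Z N).S ≤ ((T N).filter fun q => key N q = k).card) := by
      intro k hk
      have := hcon k hk
      filter_upwards [this] with N hN h
      exact absurd h.2 (not_le.2 (hN h.1))
    have h5 := (Filter.eventually_all_finset K).2 h4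
    obtain ⟨N, hN1, hN2⟩ := (hev2.and h5).exists
    obtain ⟨k, hk, hk2⟩ := hN1
    exact hN2 k hk hk2
  obtain ⟨φ, hφ, hφk⟩ := Filter.extraction_of_frequently_atTop hk
  let a0 : ℝ := ε * k.1
  let w0 : Fin r → ℝ := fun i => max (-4) (min 4 (ε * k.2 i))
  have hw0 : ∀ i, |w0 i| ≤ 4 := by
    intro i
    simp only [w0]
    rw [abs_le]
    exact ⟨le_max_left _ _, max_le (by norm_num) (min_le_left _ _)⟩
  have hbox : ∀ N, ∀ q ∈ (T (φ N)).filter (fun q => key (φ N) q = k),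
      |(Z (φ N)).a q| ≤ C1 ∧ θ ≤ (Z (φ N)).dist q (Z (φ N)).x ∧ |(Z (φ N)).a q - a0| ≤ ε ∧
        ∀ i, |w (φ N) q i - w0 i| ≤ ε := by
    intro N q hq
    obtain ⟨hq1, hq2⟩ := Finset.mem_filter.1 hq
    obtain ⟨hq3, hq4⟩ := Finset.mem_filter.1 hq1
    have hq5 : |(Z (φ N)).a q| ≤ C1 := (Finset.mem_filter.1 hq3).2
    have hk1 : ⌊(Z (φ N)).a q / ε⌋ = k.1 := congrArg Prod.fst hq2
    have hk2 : ∀ i, ⌊w (φ N) q i / ε⌋ = k.2 i := fun i => congrFun (congrArg Prod.snd hq2) i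
    refine ⟨hq5, hq4, ?_, fun i => ?_⟩
    · have := (box1 hε hq5).2
      rwa [hk1] at this
    · have hw4 : |w (φ N) q i| ≤ 4 := wbd _ (g (φ N) i) (hgb _ i) q (hq5.trans (hφk N).1)
      have h6 := (box1 hε hw4).2
      rw [hk2] at h6
      have h7 : ε * k.2 i ≤ w (φ N) q i := by
        rw [← hk2 i]
        have := Int.floor_le (w (φ N) q i / ε)
        calc ε * (⌊w (φ N) q i / ε⌋ : ℝ) ≤ ε * (w (φ N) q i / ε) :=
              mul_le_mul_of_nonneg_left this hε.le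
          _ = w (φ N) q i := by field_simp
      obtain ⟨h8, h9⟩ := abs_le.1 hw4
      obtain ⟨h10, h11⟩ := abs_le.1 h6
      simp only [w0]
      rw [min_eq_right (h7.trans h9), abs_le]
      constructor
      · have : max (-4) (ε * (k.2 i : ℝ)) ≤ w (φ N) q i := max_le h8 h7
        linarith
      · have : ε * (k.2 i : ℝ) ≤ max (-4) (ε * (k.2 i : ℝ)) := le_max_right _ _
        linarith
  have hS' : Tendsto (fun N => (Z (φ N)).S) atTop atTop := hS.comp hφ.tendsto_atTop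
  have hfill' : Filling fun N => Z (φ N) := fun G hG1 hG2 e he =>
    (hfill G hG1 hG2 e he).comp hφ.tendsto_atTop
  have hmkt := h3 c hc (fun N => Z (φ N)) hS' hfill' r (fun N => g (φ N)) (fun N => hgm (φ N))
    (fun N => hgb (φ N)) κ ε a0 w0 hκ hε hw0 (by
      intro N
      refine (hφk N).2.trans ?_
      exact_mod_cast Finset.card_le_card fun q hq => by
        obtain ⟨b1, _, b3, b4⟩ := hbox N q hq
        refine Finset.mem_filter.2 ⟨Finset.mem_filter.2 ⟨Finset.mem_univ _, ?_⟩, b3, b4⟩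
        exact b1.trans (hφk N).1)
  have hall := (Filter.eventually_all_finset F).2 fun s _ => hmkt s
  obtain ⟨N, hN⟩ := hall.exists
  have hne : ((T (φ N)).filter fun q => key (φ N) q = k).Nonempty := by
    rw [← Finset.card_pos]
    have h12 := (hφk N).2
    have h13 : 0 < κ * (Z (φ N)).S := mul_pos hκ (lt_of_lt_of_le one_pos (Z (φ N)).one_le)
    exact_mod_cast h13.trans_le h12
  obtain ⟨q, hq⟩ := hne
  obtain ⟨b1, b2, b3, b4⟩ := hbox N q hq
  refine ⟨φ N, q, b1, b2, fun s hs => ?_⟩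
  obtain ⟨p, hp1, hp2⟩ := hN s hs
  have hsL := hF s hs
  obtain ⟨c1, c2⟩ := abs_le.1 b1
  obtain ⟨c3, c4⟩ := abs_le.1 b3
  obtain ⟨c5, c6⟩ := abs_le.1 hp1
  obtain ⟨c7, c8⟩ := abs_le.1 hsL
  refine ⟨p, hgc (φ N) p ?_ q ?_ ?_, ?_⟩
  · refine Finset.mem_filter.2 ⟨Finset.mem_univ _, ?_⟩
    rw [abs_le]
    constructor <;> linarith
  · refine Finset.mem_filter.2 ⟨Finset.mem_univ _, ?_⟩
    rw [abs_le]
    constructor <;> linarith
  · intro i
    have e1 := hp2 i
    have e2 := b4 i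
    obtain ⟨e3, e4⟩ := abs_le.1 e1
    obtain ⟨e5, e6⟩ := abs_le.1 e2
    simp only [w] at e5 e6
    rw [abs_le]
    constructor <;> linarith
  · rw [abs_le]
    constructor <;> linarith

end

end Pool.Agent.Helper32.KS
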